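import Pool.Agent.Y924.UF.Stm3
import Pool.Agent.Y383.UF.FML

/-! # Project UF (helper924), part FULL (by helper409): all finite cardinalities occur -/

set_option autoImplicit false

namespace Pool.Agent.Y409.UF

open Function
open Pool.Agent.Y924.EL Pool.Agent.Y924.UF Pool.Agent.Y383.UF

/-- the coded subset -/
def cdF (p M : ℕ) : Fm :=
  .ex 64 (.and (.eq 64 M) (.ex 65 (.and (.eq 65 (M + 1)) (.ex 66 (.and (.eq 66 (M + 2))
    (BFa p (M + 3) 0 (M + 4)))))))

lemma sat_cdF {K : Type} [CommRing K] (O : Set K) (p : ℕ) {M : ℕ} (hM : 100 ≤ M) (v : ℕ → K) :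
    Sat O (cdF p M) v ↔
      BB (v M) p (v (M + 1)) (v (M + 2)) (v (M + 3)) (v 0) (v (M + 4)) := by
  have e : ∀ j k : ℕ, k < 100 → M + j ≠ k := fun j k hk => by omega
  have e0 : ∀ k : ℕ, k < 100 → M ≠ k := fun k hk => by omega
  simp only [cdF, Sat, sat_BFa O p (a := M + 3) (b := 0) (c := M + 4) (e _ _ (by norm_num))
    (by norm_num) (by norm_num) (e _ _ (by norm_num)) (e _ _ (by norm_num))
    (e _ _ (by norm_num)), update_self]
  constructor
  · rintro ⟨a, h1, b, h2, c, h3, h4⟩
    rw [update_of_ne (e0 _ (by norm_num))] at h1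
    rw [update_of_ne (e _ _ (by norm_num)), update_of_ne (e _ _ (by norm_num))] at h2
    rw [update_of_ne (e _ _ (by norm_num)), update_of_ne (e _ _ (by norm_num)),
      update_of_ne (e _ _ (by norm_num))] at h3
    subst h1 h2 h3
    simp only [update_apply, e _ _ (show 64 < 100 by norm_num), e _ _ (show 65 < 100 by norm_num),
      e _ _ (show 66 < 100 by norm_num)] at h4
    norm_num at h4
    exact h4
  · intro h
    refine ⟨v M, ?_, v (M + 1), ?_, v (M + 2), ?_, ?_⟩
    · rw [update_of_ne (e0 _ (by norm_num))]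
    · rw [update_of_ne (e _ _ (by norm_num)), update_of_ne (e _ _ (by norm_num))]
    · rw [update_of_ne (e _ _ (by norm_num)), update_of_ne (e _ _ (by norm_num)),
        update_of_ne (e _ _ (by norm_num))]
    · simp only [update_apply, e _ _ (show 64 < 100 by norm_num),
        e _ _ (show 65 < 100 by norm_num), e _ _ (show 66 < 100 by norm_num)]
      norm_num
      exact h

theorem t_FULL : Pool.Agent.Y924.UF.S_CODE → Pool.Agent.Y924.UF.S_CLO → Pool.Agent.Y924.UF.S_FULL := by
  classical
  intro hcode hclo p _ P φ h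
  obtain ⟨V0, hV0⟩ := hclo.1 φ
  have hM : 100 ≤ max V0 100 := le_max_right _ _
  have hB : Below (max V0 100) φ := hV0 _ (le_max_left _ _)
  generalize max V0 100 = M at hM hB
  refine ⟨.and φ (cdF p M), fun n => ?_⟩
  obtain ⟨v, hv, hn⟩ := h n
  obtain ⟨T, hTS, hT⟩ := Set.exists_subset_card_eq hn.le
  obtain ⟨t, u, w, hR⟩ := hcode p (insert 0 (DefP P φ v)) (hv.insert 0)
  obtain ⟨s, hs⟩ := hR fun a _ => a ∈ T
  let v' : ℕ → LaurentSeries (ZMod p) := fun i => if i < M then v i else
    if i = M then t else if i = M + 1 then u else if i = M + 2 then w else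
      if i = M + 3 then s else 0
  have e0 : v' M = t := by simp [v']
  have e1 : v' (M + 1) = u := by simp [v']
  have e2 : v' (M + 2) = w := by simp [v']
  have e3 : v' (M + 3) = s := by simp [v']
  have e4 : v' (M + 4) = 0 := by simp [v']
  have hne : ∀ j, M + j ≠ 0 := fun j => by omega
  have hD : DefP P (.and φ (cdF p M)) v' = T := by
    ext x
    have h1 : x ∈ DefP P (.and φ (cdF p M)) v' ↔
        (Sat P φ (update v' 0 x) ∧ Sat P (cdF p M) (update v' 0 x)) := Iff.rfl
    have h2 : Sat P φ (update v' 0 x) ↔ x ∈ DefP P φ v := by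
      refine sat_agree P φ hB _ _ fun i hi => ?_
      by_cases hi0 : i = 0
      · subst hi0
        rw [update_self, update_self]
      · rw [update_of_ne hi0, update_of_ne hi0]
        simp only [v', if_pos hi]
    rw [h1, h2, sat_cdF P p hM, update_self, update_of_ne (show M ≠ 0 by omega),
      update_of_ne (hne 1), update_of_ne (hne 2), update_of_ne (hne 3), update_of_ne (hne 4),
      e0, e1, e2, e3, e4]
    constructor
    · rintro ⟨h3, h4⟩
      exact (hs x (Set.mem_insert_of_mem _ h3) 0 (Set.mem_insert _ _)).1 h4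
    · intro h3
      exact ⟨hTS h3, (hs x (Set.mem_insert_of_mem _ (hTS h3)) 0 (Set.mem_insert _ _)).2 h3⟩
  exact ⟨v', by rw [hD]; exact hv.subset hTS, by rw [hD]; exact hT⟩

end Pool.Agent.Y409.UF
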